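import Pool.Agent.W_f620c_h49.Fin

set_option autoImplicit false

open CubZ

namespace Pool.Agent.Results.MP_f620bf_co.AlmostSimple

/-- Bounds for the face numbers of a cubical `d`-polytope, `d ≥ 3`, with `n` vertices. -/
theorem result (d : ℕ) (hd : 3 ≤ d) (V : Finset (Pt d)) (hV : IsPolytope V) (hC : Cubical V)
    (n : ℝ) (hn : n = V.card) :
    (∀ i < d, d.choose i * n ≤ 2 ^ i * fnum V i ∧
      2 ^ i * fnum V i ≤ d.choose i * n * (1 + i * 2 ^ (i + 1) * (n - 2 ^ d) / (d * 2 ^ d))) ∧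
    (4 ≤ d → fnum V 1 ≤ n / 2 * (d + (n - 2 ^ d) / (2 ^ (d - 2) + 2))) ∧
    (∀ a b : ℕ, a ≤ b → b ≤ a + 1 → a + b = d - 1 →
      fnum V (d - 1) ≤ n / 2 ^ (d - 1) * (d + 2 * (n - 2 ^ d) / (2 ^ a + 2 ^ b))) ∧
    (∀ i < d, ∀ ρ μ : ℝ, 0 ≤ ρ →
      (∀ r, 1 ≤ r → r ≤ d - 2 → (r.choose (d - 1 - i) : ℝ) + ((d - 1 - r).choose (d - 1 - i) : ℝ)
        ≤ ρ * (2 ^ r + 2 ^ (d - 1 - r)) + 2 * μ * (-1) ^ r) →
      2 ^ i * fnum V i ≤ d.choose i * n + (n - 2 ^ d) * (ρ * n - (if Odd d then μ else 0))) ∧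
    (d = 4 → fnum V 1 ≤ n * (n + 8) / 12 ∧ fnum V 2 ≤ n * (n - 4) / 8 ∧
      fnum V 3 ≤ n * (n - 4) / 24) ∧
    (d = 5 → fnum V 1 ≤ (n - 2) * (n + 64) / 36 ∧ fnum V 2 ≤ (n - 2) * (5 * n + 32) / 72 ∧
      fnum V 3 ≤ (n - 2) * (n - 8) / 18 ∧ fnum V 4 ≤ (n - 2) * (n - 8) / 72) :=
  final d hd V hV hC n hn

end Pool.Agent.Results.MP_f620bf_co.AlmostSimple
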