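import Pool.Agent.W_f620_h46.Bounds

/-!
MP_f620bf_co. Upper bounds for the face numbers of cubical polytopes in terms of the number
of vertices and of the largest number of edges of one zone at a vertex.
-/

set_option autoImplicit false

namespace Pool.Agent.Results.MP_f620bf_co.UpperBound

open Finset Polynomial CubZ

/-- Edges in one zone with an edge are edges. -/
lemma sameZone_edge {d : ℕ} {V e e' : Finset (Pt d)} (h : SameZone V e e') :
    IsEdge V e ↔ IsEdge V e' := by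
  induction h with
  | rel x y h => exact ⟨fun _ => h.2.1, fun _ => h.1⟩
  | refl x => exact Iff.rfl
  | symm x y _ ih => exact ih.symm
  | trans x y z _ _ ih1 ih2 => exact ih1.trans ih2

/-- Let `V` be the vertex set of a cubical polytope of dimension `d ≥ 3` with `n` vertices, and
suppose that at every vertex at most `μ` edges belong to any one zone. Let `s(j)` be the sum of
the binary digits of `j`, `S` the sum of the `s(j)`, `j < n`, and `f_i` the number of proper faces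
of dimension `i`.

1. `2^i f_i ≤ ∑_{j < n} [X^i] (2 (1 + X)^μ - 1)^{s(j)}`; hence
2. `2^i f_i ≤ n C(μ m, i)` whenever `n ≤ 2^m`, and
3. `f_i ≤ ∑_{j < n} C(s(j), i)` if `μ = 1`.
4. The number of all proper faces is at most `4^d n (μ m)^(⌊d/2⌋ - 1)` if `n ≤ 2^m`.
5. If `d = 4` then `2 f_3 + n ≤ μ S` and `2 f_2 + 3 n ≤ 3 μ S`.
6. If `d = 5` then `2 f_4 + 2 n ≤ μ S + 4`, `f_3 + 4 n ≤ 2 μ S + 8`, `2 f_2 + 8 n ≤ 5 μ S + 16`. -/
theorem result {d : ℕ} (hd : 3 ≤ d) (V : Finset (Pt d)) (hV : IsPolytope V) (hC : Cubical V)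
    (μ : ℕ)
    (hμ : ∀ e₀, IsEdge V e₀ → ∀ v, {e | IsEdge V e ∧ v ∈ e ∧ SameZone V e₀ e}.ncard ≤ μ) :
    (∀ i, ((2 ^ i * fnum V i : ℕ) : ℤ) ≤
      ∑ j ∈ range V.card, ((2 * (1 + X) ^ μ - 1 : ℤ[X]) ^ (Nat.digits 2 j).sum).coeff i) ∧
    (∀ i m, V.card ≤ 2 ^ m → 2 ^ i * fnum V i ≤ V.card * (μ * m).choose i) ∧
    (μ = 1 → ∀ i, fnum V i ≤ ∑ j ∈ range V.card, ((Nat.digits 2 j).sum).choose i) ∧
    (∀ m, V.card ≤ 2 ^ m →
      {F | IsFace V F ∧ F ≠ V}.ncard ≤ 4 ^ d * V.card * (μ * m) ^ (d / 2 - 1)) ∧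
    (d = 4 →
      2 * fnum V 3 + V.card ≤ μ * ∑ j ∈ range V.card, (Nat.digits 2 j).sum ∧
      2 * fnum V 2 + 3 * V.card ≤ 3 * (μ * ∑ j ∈ range V.card, (Nat.digits 2 j).sum)) ∧
    (d = 5 →
      2 * fnum V 4 + 2 * V.card ≤ μ * ∑ j ∈ range V.card, (Nat.digits 2 j).sum + 4 ∧
      fnum V 3 + 4 * V.card ≤ 2 * (μ * ∑ j ∈ range V.card, (Nat.digits 2 j).sum) + 8 ∧
      2 * fnum V 2 + 8 * V.card ≤ 5 * (μ * ∑ j ∈ range V.card, (Nat.digits 2 j).sum) + 16) := by
  have hμ' : ∀ e₀ v, {e | IsEdge V e ∧ v ∈ e ∧ SameZone V e₀ e}.ncard ≤ μ := by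
    intro e₀ v
    by_cases h : IsEdge V e₀
    · exact hμ e₀ h v
    · have : {e | IsEdge V e ∧ v ∈ e ∧ SameZone V e₀ e} = ∅ := by
        rw [Set.eq_empty_iff_forall_notMem]
        rintro e ⟨h1, -, h3⟩
        exact h ((sameZone_edge h3).2 h1)
      rw [this, Set.ncard_empty]; exact Nat.zero_le _
  have hT : ∀ i, 2 ^ i * (T V V i).card ≤ Φ μ i V.card := count hd hV hC hμ' V
  have key : ∀ i, 2 ^ i * fnum V i ≤ Φ μ i V.card := fun i =>
    (Nat.mul_le_mul_left _ (fnum_le hC i)).trans (hT i)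
  have hS : (T V V 1).card ≤ μ * ∑ j ∈ range V.card, (Nat.digits 2 j).sum := by
    have h1 := hT 1
    have h2 : Φ μ 1 V.card = 2 * (μ * ∑ j ∈ range V.card, (Nat.digits 2 j).sum) := by
      have hP : ∀ s, P μ s 1 = 2 * (μ * s) := by
        intro s
        induction s with
        | zero => simp [P, coeff_one]
        | succ s ih =>
          rw [P_succ, ih, Finset.Nat.antidiagonal_succ]
          simp [Y_coeff, P_zero_right]
          ring
      simp only [Φ, hP, mul_sum]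
      rfl
    rw [h2, pow_one] at h1
    exact Nat.le_of_mul_le_mul_left h1 (by norm_num)
  refine ⟨fun i => ?_, fun i m hm => (key i).trans (Φ_le μ m _ hm i), ?_, fun m hm => ?_, ?_, ?_⟩
  · refine (Int.ofNat_le.2 (key i)).trans (le_of_eq ?_)
    simp only [Φ, Nat.cast_sum, P_int]
    rfl
  · rintro rfl i
    have := key i
    rw [Φ_one] at this
    exact Nat.le_of_mul_le_mul_left this (by positivity)
  · refine le_trans ?_ (total hd hV hC (μ * m) (fun i => (hT i).trans (Φ_le μ m _ hm i)))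
    have h1 : {F : Finset (Pt d) | IsFace V F ∧ F ≠ V}.ncard ≤
        ((range d).biUnion (fun k => T V V k)).card := by
      rw [← Set.ncard_coe_finset]
      refine Set.ncard_le_ncard ?_ (Finset.finite_toSet _)
      rintro F ⟨h2, h3⟩
      rw [mem_coe, mem_biUnion]
      refine ⟨fdim F, mem_range.2 (fdim_lt h2 h3), ?_⟩
      rw [mem_T]
      exact ⟨h2.1, h2, h3, card_eq_fdim hC h2 h3⟩
    exact h1.trans card_biUnion_le
  · rintro rfl
    obtain ⟨h1, h2⟩ := dim_four hV hC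
    have h3 := fnum_le hC 3
    have h4 := fnum_le hC 2
    omega
  · rintro rfl
    obtain ⟨h1, h2, h3⟩ := dim_five hV hC
    have h4 := fnum_le hC 4
    have h5 := fnum_le hC 3
    have h6 := fnum_le hC 2
    omega

end Pool.Agent.Results.MP_f620bf_co.UpperBound
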